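import Mathlib
import Pool.Agent.H220.F4.Stm

set_option autoImplicit false

open MeasureTheory Metric Set Filter Topology Matrix
open scoped ContDiff ComplexOrder

namespace Pool.Agent.H287.F4

open Pool.Agent.H805R2 Pool.Agent.H805R2.Gram Pool.Agent.H220.F4

lemma schur {m n : Type} [Fintype m] [DecidableEq m] [Fintype n] [DecidableEq n]
    (G : Matrix (m ⊕ n) (m ⊕ n) ℂ) (hG : G.PosDef) :
    ∃ S : Matrix m m ℂ, S.PosDef ∧ G.toBlocks₂₂.PosDef ∧ G.det = S.det * G.toBlocks₂₂.det ∧
      (∀ p : m → ℂ, ∃ y : n → ℂ, qf G (Sum.elim p y) = qf S p) ∧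
      ∀ y : n → ℂ, qf G (Sum.elim (0 : m → ℂ) y) = qf G.toBlocks₂₂ y := by
  set A := G.toBlocks₁₁ with hA
  set B := G.toBlocks₁₂ with hB
  set D := G.toBlocks₂₂ with hD
  have hC : G.toBlocks₂₁ = Bᴴ := by
    ext i j
    have := congrFun (congrFun hG.1 (Sum.inr i)) (Sum.inl j)
    simp only [conjTranspose_apply] at this
    simp only [hB, toBlocks₂₁, toBlocks₁₂, of_apply, conjTranspose_apply]
    exact this.symm
  have hGe : G = fromBlocks A B Bᴴ D := by
    rw [← hC]
    exact (fromBlocks_toBlocks G).symm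
  have hDp : D.PosDef := by
    have := hG.submatrix (e := (Sum.inr : n → m ⊕ n)) Sum.inr_injective
    exact this
  have hAp : A.IsHermitian := by
    have := (hG.submatrix (e := (Sum.inl : m → m ⊕ n)) Sum.inl_injective).1
    exact this
  haveI : Invertible D := hDp.isUnit.invertible
  set S := A - B * D⁻¹ * Bᴴ with hS
  have hid : ∀ (x : m → ℂ) (y : n → ℂ), qf G (Sum.elim x y) =
      qf D ((D⁻¹ * Bᴴ) *ᵥ x + y) + qf S x := by
    intro x y
    have h := schur_complement_eq₂₂ A B x y hDp.1
    unfold qf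
    rw [hGe, dotProduct_mulVec, h, ← dotProduct_mulVec, ← dotProduct_mulVec]
  have hq : ∀ p : m → ℂ, qf G (Sum.elim p (-((D⁻¹ * Bᴴ) *ᵥ p))) = qf S p := by
    intro p
    rw [hid, add_neg_cancel]
    simp [qf]
  have hSh : S.IsHermitian := by
    have h1 : D⁻¹.IsHermitian := hDp.1.inv
    rw [hS]
    refine hAp.sub ?_
    exact isHermitian_mul_mul_conjTranspose B h1
  refine ⟨S, ?_, hDp, ?_, fun p => ⟨_, hq p⟩, fun y => ?_⟩
  · refine PosDef.of_dotProduct_mulVec_pos hSh fun x hx => ?_
    have h1 := hG.dotProduct_mulVec_pos (x := Sum.elim x (-((D⁻¹ * Bᴴ) *ᵥ x))) (by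
      intro h0
      apply hx
      ext i
      exact congrFun h0 (Sum.inl i))
    have h2 := hq x
    unfold qf at h2
    rw [h2] at h1
    exact h1
  · rw [hGe, det_fromBlocks₂₂, invOf_eq_nonsing_inv, mul_comm]
  · rw [hid]
    simp [qf]

/-- splitting off the first block -/
def eqv (L M : ℕ) : Fin (L + 1) × Fin M ≃ Fin M ⊕ (Fin L × Fin M) where
  toFun x := Fin.cases (motive := fun _ => Fin M ⊕ (Fin L × Fin M)) (Sum.inl x.2)
    (fun b => Sum.inr (b, x.2)) x.1
  invFun := Sum.elim (fun a => (0, a)) (fun y => (y.1.succ, y.2))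
  left_inv := by
    rintro ⟨b, a⟩
    refine Fin.cases ?_ (fun b => ?_) b <;> rfl
  right_inv := by rintro (a | ⟨b, a⟩) <;> rfl

lemma qf_submatrix {m n : Type} [Fintype m] [Fintype n] (e : m ≃ n) (G : Matrix n n ℂ) (c : m → ℂ) :
    qf (G.submatrix e e) c = qf G (c ∘ e.symm) := by
  unfold qf
  rw [submatrix_mulVec_equiv]
  simp only [dotProduct]
  refine Fintype.sum_equiv e _ _ fun i => ?_
  simp

theorem s_flag : S_flag := by
  intro L
  induction L with
  | zero =>
    intro M G hG
    refine ⟨fun l => l.elim0, fun l => l.elim0, ?_, fun l => l.elim0⟩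
    simp
  | succ L ih =>
    intro M G hG
    set e := eqv L M with he
    have hG' : (G.submatrix e.symm e.symm).PosDef := hG.submatrix e.symm.injective
    obtain ⟨S, hS, hD, hdet, hp, hy⟩ := schur _ hG'
    obtain ⟨nn, h1, h2, h3⟩ := ih M _ hD
    refine ⟨Fin.cons S nn, ?_, ?_, ?_⟩
    · intro l
      refine Fin.cases ?_ (fun l => ?_) l
      · exact hS
      · exact h1 l
    · rw [Fin.prod_univ_succ]
      simp only [Fin.cons_zero, Fin.cons_succ]
      rw [← h2, ← hdet, det_submatrix_equiv_self]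
    · intro l p
      have hqe : ∀ c, qf (G.submatrix e.symm e.symm) c = qf G (c ∘ e) := fun c => by
        rw [qf_submatrix]
        rfl
      revert p
      refine Fin.cases ?_ (fun l => ?_) l
      · intro p
        obtain ⟨y, hy1⟩ := hp p
        refine ⟨(Sum.elim p y) ∘ e, ?_, ?_, ?_⟩
        · intro b a hb
          exact absurd hb (Fin.not_lt_zero b)
        · intro a
          rfl
        · rw [← hqe, hy1]
          rfl
      · intro p
        obtain ⟨P, hP1, hP2, hP3⟩ := h3 l p
        refine ⟨(Sum.elim (0 : Fin M → ℂ) P) ∘ e, ?_, ?_, ?_⟩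
        · intro b a
          refine Fin.cases ?_ (fun b => ?_) b
          · intro _
            rfl
          · intro hb
            exact hP1 b a (Fin.succ_lt_succ_iff.1 hb)
        · intro a
          exact hP2 a
        · rw [← hqe, hy, hP3]
          rfl

end Pool.Agent.H287.F4
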