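import Mathlib
import Pool.Agent.H220.F4.Stm

set_option autoImplicit false

open MeasureTheory Metric Set Filter Topology Matrix
open scoped ContDiff ComplexOrder ComplexConjugate

namespace Pool.Agent.H287.F4

open Pool.Agent.H805R2 Pool.Agent.H805R2.Gram Pool.Agent.H220.F4

lemma integrableOn_ball {E : Type} [NormedAddCommGroup E] {f : ℂ → E} (hf : Continuous f) :
    IntegrableOn f (ball (0 : ℂ) 1) :=
  (hf.continuousOn.integrableOn_compact (isCompact_closedBall (0 : ℂ) 1)).mono_set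
    ball_subset_closedBall

lemma wt_cont (β : ℝ) (a : ℕ) :
    Continuous fun ζ : ℂ => ‖ζ‖ ^ (2 * a) * Real.exp (β * (1 - ‖ζ‖ ^ 2)) := by fun_prop

lemma int_pow (a : ℕ) : ∫ ζ in ball (0 : ℂ) 1, ‖ζ‖ ^ (2 * a) = Real.pi / (a + 1) := by
  have h := integral_fun_norm_addHaar (volume : Measure ℂ)
    (fun y : ℝ => (Iio (1 : ℝ)).indicator (fun y => y ^ (2 * a)) y)
  have e1 : ∫ ζ in ball (0 : ℂ) 1, ‖ζ‖ ^ (2 * a) =
      ∫ x : ℂ, (fun y : ℝ => (Iio (1 : ℝ)).indicator (fun y => y ^ (2 * a)) y) ‖x‖ := by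
    rw [← integral_indicator measurableSet_ball]
    congr 1
    ext x
    by_cases hx : ‖x‖ < 1
    · have hx1 : x ∈ ball (0 : ℂ) 1 := by simpa using hx
      have hx2 : ‖x‖ ∈ Iio (1 : ℝ) := hx
      rw [indicator_of_mem hx1]
      exact (indicator_of_mem hx2 _).symm
    · have hx1 : x ∉ ball (0 : ℂ) 1 := by simpa using hx
      have hx2 : ‖x‖ ∉ Iio (1 : ℝ) := hx
      rw [indicator_of_notMem hx1]
      exact (indicator_of_notMem hx2 _).symm
  rw [e1, h]
  have e2 : ∫ y in Ioi (0 : ℝ), y ^ (Module.finrank ℝ ℂ - 1) •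
      (Iio (1 : ℝ)).indicator (fun y => y ^ (2 * a)) y = 1 / (2 * a + 2) := by
    have e3 : ∀ y : ℝ, y ^ (Module.finrank ℝ ℂ - 1) • (Iio (1 : ℝ)).indicator (fun y => y ^ (2 * a)) y =
        (Iio (1 : ℝ)).indicator (fun y => y ^ (2 * a + 1)) y := by
      intro y
      rw [Complex.finrank_real_complex]
      by_cases hy : y ∈ Iio (1 : ℝ)
      · rw [indicator_of_mem hy, indicator_of_mem hy]
        simp only [smul_eq_mul]
        ring
      · rw [indicator_of_notMem hy, indicator_of_notMem hy, smul_zero]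
    simp_rw [e3]
    rw [setIntegral_indicator measurableSet_Iio, Ioi_inter_Iio, ← integral_Ioc_eq_integral_Ioo,
      ← intervalIntegral.integral_of_le zero_le_one, integral_pow]
    push_cast
    ring_nf
  rw [e2, Complex.finrank_real_complex]
  have e4 : (volume : Measure ℂ).real (ball (0 : ℂ) 1) = Real.pi := by
    rw [Measure.real, Complex.volume_ball]
    simp
  rw [e4]
  simp only [nsmul_eq_mul, smul_eq_mul]
  have : ((a : ℝ) + 1) ≠ 0 := by positivity
  field_simp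
  push_cast
  ring

lemma wt_lower (β : ℝ) (a : ℕ) : Real.exp (-|β|) * (Real.pi / (a + 1)) ≤ wt β a := by
  rw [← int_pow, ← integral_const_mul]
  unfold wt
  refine setIntegral_mono_on ?_ (integrableOn_ball (wt_cont β a)) measurableSet_ball ?_
  · exact integrableOn_ball (by fun_prop)
  · intro ζ hζ
    rw [mul_comm]
    refine mul_le_mul_of_nonneg_left ?_ (by positivity)
    apply Real.exp_le_exp.2
    have h1 : ‖ζ‖ < 1 := by simpa using hζ
    have h2 : 0 ≤ 1 - ‖ζ‖ ^ 2 := by nlinarith [norm_nonneg ζ]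
    have h3 : 1 - ‖ζ‖ ^ 2 ≤ 1 := by nlinarith [norm_nonneg ζ]
    have h4 : |β * (1 - ‖ζ‖ ^ 2)| ≤ |β| := by
      rw [abs_mul, abs_of_nonneg h2]
      exact mul_le_of_le_one_right (abs_nonneg β) h3
    exact (abs_le.1 h4).1

lemma wt_pos (β : ℝ) (a : ℕ) : 0 < wt β a :=
  lt_of_lt_of_le (by positivity) (wt_lower β a)

lemma wt_ge (β : ℝ) (a : ℕ) (hβ : 0 ≤ β) : 1 / (4 * ((a : ℝ) + 1)) ≤ wt β a := by
  have h1 : Real.pi / (a + 1) ≤ wt β a := by
    rw [← int_pow]
    unfold wt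
    refine setIntegral_mono_on ?_ (integrableOn_ball (wt_cont β a)) measurableSet_ball ?_
    · exact integrableOn_ball (by fun_prop)
    · intro ζ hζ
      refine le_mul_of_one_le_right (by positivity) ?_
      apply Real.one_le_exp
      have h1 : ‖ζ‖ < 1 := by simpa using hζ
      have h2 : 0 ≤ 1 - ‖ζ‖ ^ 2 := by nlinarith [norm_nonneg ζ]
      positivity
  refine le_trans ?_ h1
  rw [div_le_div_iff₀ (by positivity) (by positivity)]
  have := Real.pi_gt_three
  have h2 : (0 : ℝ) ≤ a := Nat.cast_nonneg a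
  nlinarith

lemma wt_le (β : ℝ) (a : ℕ) (hβ : 0 < β) :
    wt β a ≤ Real.pi * Real.exp β * (a.factorial : ℝ) / β ^ (a + 1) := by
  have h := Complex.integral_rpow_mul_exp_neg_mul_rpow (p := 2) (q := 2 * a) (b := β) (by norm_num)
    (by have : (0 : ℝ) ≤ a := Nat.cast_nonneg a
        linarith) hβ
  have hv : 2 * Real.pi / 2 * β ^ (-(2 * (a : ℝ) + 2) / 2) * Real.Gamma ((2 * a + 2) / 2) =
      Real.pi * (a.factorial : ℝ) / β ^ (a + 1) := by
    have e1 : (2 * (a : ℝ) + 2) / 2 = a + 1 := by ring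
    have e2 : -(2 * (a : ℝ) + 2) / 2 = -((a + 1 : ℕ) : ℝ) := by push_cast; ring
    rw [e1, e2, Real.Gamma_nat_eq_factorial, Real.rpow_neg hβ.le, Real.rpow_natCast]
    field_simp
  rw [hv] at h
  have hpos : 0 < Real.pi * (a.factorial : ℝ) / β ^ (a + 1) := by positivity
  have hi : Integrable (fun x : ℂ => ‖x‖ ^ (2 * (a : ℝ)) * Real.exp (-β * ‖x‖ ^ (2 : ℝ))) := by
    by_contra hn
    rw [integral_undef hn] at h
    exact hpos.ne h
  have e3 : Real.pi * Real.exp β * (a.factorial : ℝ) / β ^ (a + 1) =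
      ∫ x : ℂ, Real.exp β * (‖x‖ ^ (2 * (a : ℝ)) * Real.exp (-β * ‖x‖ ^ (2 : ℝ))) := by
    rw [integral_const_mul, h]
    ring
  rw [e3]
  have e4 : ∀ x : ℂ, ‖x‖ ^ (2 * a) * Real.exp (β * (1 - ‖x‖ ^ 2)) =
      Real.exp β * (‖x‖ ^ (2 * (a : ℝ)) * Real.exp (-β * ‖x‖ ^ (2 : ℝ))) := by
    intro x
    have e5 : (2 * (a : ℝ)) = ((2 * a : ℕ) : ℝ) := by push_cast; ring
    rw [e5, Real.rpow_natCast, Real.rpow_two]
    have e6 : Real.exp (β * (1 - ‖x‖ ^ 2)) = Real.exp β * Real.exp (-β * ‖x‖ ^ 2) := by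
      rw [← Real.exp_add]
      congr 1
      ring
    rw [e6]
    ring
  unfold wt
  simp_rw [e4]
  refine setIntegral_le_integral (hi.const_mul _) (Eventually.of_forall fun x => ?_)
  simp only [Pi.zero_apply]
  positivity

/-- mixed integrals -/
noncomputable def mx (β : ℝ) (a b : ℕ) : ℂ :=
  ∫ ζ in ball (0 : ℂ) 1, conj (ζ ^ a) * ζ ^ b * (Real.exp (β * (1 - ‖ζ‖ ^ 2)) : ℂ)

lemma mx_rot (β : ℝ) (a b : ℕ) (c : Circle) :
    mx β a b = conj ((c : ℂ) ^ a) * (c : ℂ) ^ b * mx β a b := by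
  have hm := (rotation c).measurePreserving
  have h1 := hm.setIntegral_preimage_emb (rotation c).toHomeomorph.measurableEmbedding
    (fun ζ : ℂ => conj (ζ ^ a) * ζ ^ b * (Real.exp (β * (1 - ‖ζ‖ ^ 2)) : ℂ)) (ball (0 : ℂ) 1)
  have h2 : (rotation c) ⁻¹' (ball (0 : ℂ) 1) = ball (0 : ℂ) 1 := by
    ext x
    simp only [mem_preimage, mem_ball_zero_iff, LinearIsometryEquiv.norm_map]
  rw [h2] at h1
  unfold mx
  conv_lhs => rw [← h1]
  rw [← integral_const_mul]
  congr 1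
  ext ζ
  simp only [rotation_apply, mul_pow, map_mul, norm_mul, Circle.norm_coe, one_mul]
  ring

lemma mx_off (β : ℝ) {a b : ℕ} (hab : a ≠ b) : mx β a b = 0 := by
  have hne : ((b : ℝ) - a) ≠ 0 := by
    intro h
    apply hab
    have : (a : ℝ) = b := by linarith
    exact_mod_cast this
  have h := mx_rot β a b (Circle.exp (Real.pi / (b - a)))
  have h1 : conj ((Circle.exp (Real.pi / (b - a)) : ℂ) ^ a) * (Circle.exp (Real.pi / (b - a)) : ℂ) ^ b =
      -1 := by
    rw [Circle.coe_exp, map_pow, ← Complex.exp_conj, ← Complex.exp_nat_mul, ← Complex.exp_nat_mul,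
      ← Complex.exp_add, ← Complex.exp_pi_mul_I]
    congr 1
    simp only [map_mul, Complex.conj_I, Complex.conj_ofReal]
    have hne' : ((b : ℂ) - a) ≠ 0 := by exact_mod_cast hne
    push_cast
    field_simp
    ring
  rw [h1] at h
  have h2 : (2 : ℂ) * mx β a b = 0 := by linear_combination h
  simpa using h2

lemma mx_diag (β : ℝ) (a : ℕ) : mx β a a = ((wt β a : ℝ) : ℂ) := by
  unfold mx wt
  rw [← integral_complex_ofReal]
  congr 1
  ext ζ
  rw [Complex.conj_mul']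
  push_cast
  rw [norm_pow]
  push_cast
  ring

theorem s_wt : S_wt := by
  refine ⟨wt_pos, wt_ge, wt_le, fun M β p => ?_⟩
  rw [← integral_complex_ofReal]
  have h1 : ∀ ζ : ℂ, ((‖∑ a, p a * ζ ^ (a : ℕ)‖ ^ 2 * Real.exp (β * (1 - ‖ζ‖ ^ 2)) : ℝ) : ℂ) =
      ∑ a : Fin M, ∑ b : Fin M, conj (p a) * p b *
        (conj (ζ ^ (a : ℕ)) * ζ ^ (b : ℕ) * (Real.exp (β * (1 - ‖ζ‖ ^ 2)) : ℂ)) := by
    intro ζ
    push_cast
    rw [← Complex.conj_mul', map_sum, Finset.sum_mul_sum, Finset.sum_mul]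
    refine Finset.sum_congr rfl fun a _ => ?_
    rw [Finset.sum_mul]
    refine Finset.sum_congr rfl fun b _ => ?_
    rw [map_mul]
    ring
  simp_rw [h1]
  have hint : ∀ a b : ℕ, IntegrableOn (fun ζ : ℂ => conj (ζ ^ a) * ζ ^ b *
      (Real.exp (β * (1 - ‖ζ‖ ^ 2)) : ℂ)) (ball (0 : ℂ) 1) := fun a b =>
    integrableOn_ball (by fun_prop)
  rw [integral_finsetSum _ (fun (a : Fin M) _ => integrable_finsetSum _
    fun (b : Fin M) _ => (hint (a : ℕ) (b : ℕ)).const_mul _)]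
  have h2 : ∀ a : Fin M, ∫ ζ in ball (0 : ℂ) 1, ∑ b : Fin M, conj (p a) * p b *
        (conj (ζ ^ (a : ℕ)) * ζ ^ (b : ℕ) * (Real.exp (β * (1 - ‖ζ‖ ^ 2)) : ℂ)) =
        conj (p a) * p a * ((wt β a : ℝ) : ℂ) := by
    intro a
    rw [integral_finsetSum _ (fun (b : Fin M) _ => (hint (a : ℕ) (b : ℕ)).const_mul _),
      Finset.sum_eq_single a]
    · rw [integral_const_mul]
      congr 1
      exact mx_diag β a
    · intro b _ hb
      rw [integral_const_mul]
      have : mx β a b = 0 := mx_off β (fun h => hb (Fin.ext h.symm))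
      unfold mx at this
      rw [this, mul_zero]
    · intro h
      exact absurd (Finset.mem_univ a) h
  simp_rw [h2]
  unfold qf nd
  simp only [dotProduct, mulVec_diagonal, Pi.star_apply]
  refine Finset.sum_congr rfl fun a _ => ?_
  simp only [RCLike.star_def]
  ring

end Pool.Agent.H287.F4
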